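import Pool.Agent.H.MP_9a42a6_lc.A

set_option autoImplicit false

namespace Pool.Agent.Results.MP_553296_lc.Sizes

open Cardinal Ordinal Set Function

def Reg (κ : Cardinal.{0}) (c : Sym2 (Iio κ.ord → Bool) → Iio κ.ord) : Prop :=
  ∀ (x y : Iio κ.ord → Bool) (i : Iio κ.ord),
    x i ≠ y i → (∀ j < i, x j = y j) → 0 < i.1 → c s(x, y) < i

def Mono (κ : Cardinal.{0}) (c : Sym2 (Iio κ.ord → Bool) → Iio κ.ord)
    (Y : Set (Iio κ.ord → Bool)) : Prop :=
  ∃ a, Y.Pairwise fun x y => c s(x, y) = a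

theorem result (κ : Cardinal.{0}) (hκ : ℵ₀ < κ) :
    (∀ c, Reg κ c → ∃ Y, Mono κ c Y ∧ Y.encard = 4) ∧
    ((2 : Cardinal.{0}) ^ κ = 𝔠 → ∃ c, Reg κ c ∧ ∀ Y, Mono κ c Y → Y.encard ≤ 4) ∧
    (𝔠 < (2 : Cardinal.{0}) ^ κ → ∀ c, Reg κ c → ∃ Y, Mono κ c Y ∧ ¬Y.Countable) := by
  classical
  have hw : ω < κ.ord := by rwa [← ord_aleph0, ord_lt_ord]
  refine and_assoc.1 ⟨?_, fun h c hc => (H.MP_9a42a6_lc.main le_rfl h ⟨ω, hw⟩ card_omega0.le c
    fun x y i l a b => hc x y i a b (omega0_pos.trans_le l)).imp fun Y h =>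
      ⟨h.1, fun k => h.2.not_ge ((le_aleph0_iff_set_countable.2 k).trans_eq (by simp))⟩⟩
  let w : Iio κ.ord := ⟨ω, hw⟩
  let e : ℕ → Iio κ.ord := fun n => ⟨n, (natCast_lt_omega0 n).trans hw⟩
  have e1 : StrictMono e := fun a b h => Subtype.mk_lt_mk.2 (Nat.cast_lt.2 h)
  have e2 : ∀ n, e n < w := natCast_lt_omega0
  have e3 : ∀ i < w, ∃ n, i = e n := fun i h => (lt_omega0.1 h).imp fun n h => Subtype.ext h
  refine ⟨fun c hc => by_contra fun k => ?_, fun h => ?_⟩
  · let P : ℕ → (ℕ → Bool) → Prop := fun n s => ∀ x y, x ≠ y → (∀ m ≤ n, x (e m) = s m) →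
      (∀ m ≤ n, y (e m) = s m) → ∀ m < n, c s(x, y) ≠ e m
    have st : ∀ n s, ∃ b, P n s → P (n + 1) (update s (n + 1) b) := fun n s => by
      by_contra! h
      have h0 : ∀ b (x : Iio κ.ord → Bool), (∀ m ≤ n + 1, x (e m) = update s (n + 1) b m) → ∀ m ≤ n, x (e m) = s m :=
        fun b x h m hm => (h m (by omega)).trans (update_of_ne (by omega) _ _)
      have h1 : ∀ b, ∃ x y, x ≠ y ∧ (∀ m ≤ n + 1, x (e m) = update s (n + 1) b m) ∧
          (∀ m ≤ n + 1, y (e m) = update s (n + 1) b m) ∧ c s(x, y) = e n := fun b => by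
        by_contra! k
        exact (h b).2 fun x y a1 a2 a3 m hm => (Nat.lt_succ_iff_lt_or_eq.1 hm).elim
          ((h b).1 x y a1 (h0 _ _ a2) (h0 _ _ a3) m) fun l => l ▸ k x y a1 a2 a3
      have h2 : ∀ x y, (∀ m ≤ n + 1, x (e m) = update s (n + 1) false m) →
          (∀ m ≤ n + 1, y (e m) = update s (n + 1) true m) → x ≠ y ∧ c s(x, y) = e n :=
        fun x y a1 a2 => by
        have a3 : x (e (n + 1)) ≠ y (e (n + 1)) := by simp [a1, a2]
        have a4 := hc x y _ a3 (fun j hj => by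
          obtain ⟨m, rfl⟩ := e3 j (hj.trans (e2 _))
          have := Nat.lt_succ_iff.1 (e1.lt_iff_lt.1 hj)
          rw [h0 _ _ a1 m this, h0 _ _ a2 m this]) (by simp [e])
        have a5 : x ≠ y := fun l => a3 (l ▸ rfl)
        obtain ⟨m, hm⟩ := e3 _ (a4.trans (e2 _))
        refine ⟨a5, (Nat.lt_succ_iff_lt_or_eq.1 (e1.lt_iff_lt.1 (hm ▸ a4))).elim
          (fun l => absurd hm ((h true).1 x y a5 (h0 _ _ a1) (h0 _ _ a2) m l)) fun l => l ▸ hm⟩
      obtain ⟨x, y, a1, a2, a3, a4⟩ := h1 false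
      obtain ⟨z, u, b1, b2, b3, b4⟩ := h1 true
      obtain ⟨c1, d1⟩ := h2 x z a2 b2
      obtain ⟨c2, d2⟩ := h2 x u a2 b3
      obtain ⟨c3, d3⟩ := h2 y z a3 b2
      obtain ⟨c4, d4⟩ := h2 y u a3 b3
      refine k ⟨{x, y, z, u}, ⟨e n, ?_⟩, ?_⟩
      · rintro p (rfl | rfl | rfl | rfl) q (rfl | rfl | rfl | rfl) l <;>
        first | exact absurd rfl l | assumption | rwa [Sym2.eq_swap]
      · rw [encard_insert_of_notMem (by simp [a1, c1, c2]), encard_insert_of_notMem
          (by simp [c3, c4]), encard_pair b1]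
        rfl
    choose b hb using st
    let S : ℕ → ℕ → Bool := fun n => n.rec (fun _ => false) fun n s => update s (n + 1) (b n s)
    have s1 : ∀ n, P n (S n) := fun n => n.rec (fun _ _ _ _ _ _ h => absurd h (Nat.not_lt_zero _))
      fun n => hb n _
    have s2 : ∀ n, ∀ m ≤ n, S n m = S m m := fun n m h => by
      induction h with
      | refl => rfl
      | step h ih => exact (update_of_ne (Nat.lt_succ_of_le h).ne _ _).trans ih
    let x := extend e (fun m => S m m) fun _ => false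
    have s3 : ∀ m, x (e m) = S m m := e1.injective.extend_apply _ _
    have s4 : x w ≠ update x w (!x w) w := by simp
    obtain ⟨m, hm⟩ := e3 _ (hc x _ w s4 (fun j h => (update_of_ne h.ne _ _).symm) omega0_pos)
    exact s1 (m + 1) _ _ (fun l => s4 (congrFun l w)) (fun n h => (s3 n).trans (s2 _ _ h).symm)
      (fun n h => (update_of_ne (e2 n).ne _ _).trans ((s3 n).trans (s2 _ _ h).symm)) m
        m.lt_succ_self hm
  · obtain ⟨r⟩ : Nonempty ((Iio κ.ord → Bool) ↪ (ℕ → Bool)) := by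
      rw [← lift_mk_le']
      simpa [Cardinal.mk_Iio_ordinal] using (congrArg Cardinal.lift.{1} h).le
    let D : (ℕ → Bool) → (ℕ → Bool) → ℕ := fun u v => sInf {n | u n ≠ v n}
    have d1 : ∀ u v, D u v = D v u := fun u v => by simp only [D, ne_comm]
    have d2 : ∀ u v : ℕ → Bool, u ≠ v → u (D u v) ≠ v (D u v) := fun u v h => Nat.sInf_mem (ne_iff.1 h)
    refine ⟨Sym2.lift ⟨fun x y => if x ∘ e = y ∘ e then e (D (r x) (r y)) else
      if D (x ∘ e) (y ∘ e) = 0 then w else e (D (x ∘ e) (y ∘ e) - 1), fun x y => by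
        simp only [d1 (r x), d1 (x ∘ e), eq_comm (a := x ∘ e)]⟩, fun x y i a1 a2 a3 => ?_,
      fun Y ⟨a, ha⟩ => ?_⟩
    · simp only [Sym2.lift_mk]
      by_cases l : x ∘ e = y ∘ e
      · rw [if_pos l]
        exact (e2 _).trans_le (not_lt.1 fun k => (e3 i k).elim fun n k => a1 (k ▸ congrFun l n))
      have a4 : i ≤ e _ := not_lt.1 fun k => d2 _ _ l (a2 _ k)
      obtain ⟨m, rfl⟩ := e3 i (a4.trans_lt (e2 _))
      have a5 : D (x ∘ e) (y ∘ e) = m := le_antisymm (Nat.sInf_le a1) (e1.le_iff_le.1 a4)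
      have a6 : m ≠ 0 := by simpa [e, pos_iff_ne_zero] using a3
      rw [if_neg l, a5, if_neg a6]
      exact e1 (by omega)
    · obtain ⟨m, n, k⟩ : ∃ m n, Y.Pairwise fun x y => x (e m) ≠ y (e m) ∨ r x n ≠ r y n := by
        simp only [Sym2.lift_mk] at ha
        by_cases l : ∃ n, e n = a
        · obtain ⟨n, rfl⟩ := l
          refine ⟨n + 1, n, ha.imp_on fun x _ y _ k this => ?_⟩
          split_ifs at this with l1 l2
          · exact Or.inr (e1.injective this ▸ d2 _ _ (r.injective.ne k))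
          · exact absurd this (e2 n).ne'
          · exact Or.inl ((by have := e1.injective this; omega : D (x ∘ e) (y ∘ e) = n + 1) ▸
              d2 _ _ l1)
        · refine ⟨0, 0, ha.imp_on fun x _ y _ k this => ?_⟩
          split_ifs at this with l1 l2
          exacts [absurd ⟨_, this⟩ l, Or.inl (l2 ▸ d2 _ _ l1), absurd ⟨_, this⟩ l]
      refine (encard_le_encard_of_injOn (f := fun x => (x (e m), r x n)) (mapsTo_univ _ _)
        fun x hx y hy l => by_contra fun h => ?_).trans_eq (by simp)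
      exact (k hx hy h).elim (· (congrArg Prod.fst l)) (· (congrArg Prod.snd l))

end Pool.Agent.Results.MP_553296_lc.Sizes
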